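import Pool.Agent.Q48.RD.Around

/-!
# Pairs of almost primes `a < b` with a given sum and `√b - √a < 1`, with restricted digits

Let `h 1, …, h k` be nonnegative integers which are divisible by all primes `p ≤ 2 k` (for example `k = 1`, `h 1 = 0`). For every large
integer `s` we consider the `k` pairs `a = s - (m + h j)`, `b = s + (m + h j)`, all with the sum `2 s`, where `(m + h j) ^ 2 < s`; this
inequality is equivalent to `√b - √a < 1`.

Let `g ≥ 2` be a base and `K` a large number of digits. For every `i < K` let `A i` be an arbitrary set of digits, such that the number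
`|A 0| ⋯ |A (K - 1)|` of the integers `t < g ^ K` whose `i`-th digit belongs to `A i` for all `i < K` is at least `exp (- c K) g ^ K`
(`Rich`). Let `s ≤ g ^ (E K)` and `m₀ ≥ 1` be arbitrary with `(m₀ + g ^ K + h j) ^ 2 ≤ s` for all `j`, so that the length `g ^ K` of the
interval of the `m = m₀ + t` may be an arbitrarily small power of `s`.

The number of the `m = m₀ + t` with these `t` for which all pairs `a < b` consist of numbers with at most `r` prime factors, all larger
than `g ^ (K / r)`, and satisfy `√b - √a < 1`, is at least `κ V |A 0| ⋯ |A (K - 1)|`, and also at least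
`κ |A 0| ⋯ |A (K - 1)| / K ^ (2 k)`, unless there is an obvious obstruction (no digit `d` in `A 0` such that the `2 k` numbers for
`m₀ + d` are prime to `g`); the number of the `m` for which all the `a`, `b` are primes is at most `C V |A 0| ⋯ |A (K - 1)|`. Here `V` is
the product of `1 - ν (p) / p` over the primes `p ≤ g ^ K`, where `ν (p)` is the number of the `m` modulo `p` such that `p` divides one of
the `2 k` numbers, the expected order. The constants do not depend on `s`, `m₀` and the sets `A i`.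

So Andrica's inequality holds, in a strong form, for these almost primes: every large `s` is the midpoint of two of them whose square
roots differ by less than `1`.
-/

set_option autoImplicit false

namespace Pool.Agent.Results.MP_82fd4a_nt.SymmetricPairs

open Filter Finset
open Pool.Agent.Q315.RD Pool.Agent.Q48.RD

/-- All `k` pairs `s - (m + h j)`, `s + (m + h j)` consist of two numbers with the property `Q` whose square roots differ by less than
`1`. -/
def AndricaPairs {k : ℕ} (h : Fin k → ℕ) (s : ℕ) (Q : ℕ → Prop) (m : ℕ) : Prop :=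
  ∀ j, Q (s - (m + h j)) ∧ Q (s + (m + h j)) ∧ √((s + (m + h j) : ℕ) : ℝ) - √((s - (m + h j) : ℕ) : ℝ) < 1

/-- The product of `1 - ν (p) / p` over the primes `p ≤ y`, `ν (p)` the number of the zeros modulo `p` of the product of the `2 k`
polynomials `s + h j + X`, `s - h j - X`. -/
noncomputable def V {k : ℕ} (h : Fin k → ℕ) (s y : ℕ) : ℝ := aroundV h s y

/-- The square roots differ by less than `1`. -/
lemma sqrt_lt {s m : ℕ} (hm : m ^ 2 < s) : √((s + m : ℕ) : ℝ) - √((s - m : ℕ) : ℝ) < 1 := by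
  have hms : m ≤ s := (Nat.le_self_pow (by norm_num) m).trans hm.le
  have h1 : ((s - m : ℕ) : ℝ) = (s : ℝ) - m := Nat.cast_sub hms
  have h2 : (m : ℝ) ^ 2 + 1 ≤ s := by exact_mod_cast hm
  have h3 : (0 : ℝ) ≤ (s : ℝ) - m := by rw [← h1]; positivity
  rw [h1]
  push_cast
  rw [sub_lt_iff_lt_add']
  have h4 : 0 ≤ √((s : ℝ) - m) := Real.sqrt_nonneg _
  rw [Real.sqrt_lt' (by positivity)]
  have h5 : √((s : ℝ) - m) ^ 2 = (s : ℝ) - m := Real.sq_sqrt h3
  have h6 : (m : ℝ) - 1 / 2 < √((s : ℝ) - m) := by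
    apply Real.lt_sqrt_of_sq_lt
    nlinarith
  nlinarith

/-- **Pairs of almost primes `a < b` with a given sum and `√b - √a < 1`, with restricted digits.** -/
theorem result {k : ℕ} (hk : 1 ≤ k) (h : Fin k → ℕ) (hh : ∀ p : ℕ, p.Prime → p ≤ 2 * k → ∀ j, p ∣ h j) (E : ℕ) :
    ∃ c : ℝ, 0 < c ∧ ∃ r₀ : ℕ, 2 ≤ r₀ ∧ ∀ r : ℕ, r₀ ≤ r → ∀ g : ℕ, 2 ≤ g → ∃ κ C : ℝ, 0 < κ ∧ 0 < C ∧
      ∀ᶠ K : ℕ in atTop, ∀ s m₀ : ℕ, s ≤ g ^ (E * K) → 1 ≤ m₀ → (∀ j, (m₀ + g ^ K + h j) ^ 2 ≤ s) →
        ∀ A : ℕ → Finset ℕ, Rich c g K A →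
          ((∃ d ∈ A 0, AndricaPairs h s (fun n => n.Coprime g) (m₀ + d)) →
            κ * V h s (g ^ K) * choices K A ≤ count g K A (fun t => AndricaPairs h s (AlmostPrime (g ^ K) r) (m₀ + t)) ∧
            κ * choices K A / (K : ℝ) ^ (2 * k) ≤ count g K A (fun t => AndricaPairs h s (AlmostPrime (g ^ K) r) (m₀ + t))) ∧
          (count g K A (fun t => AndricaPairs h s Nat.Prime (m₀ + t)) : ℝ) ≤ C * V h s (g ^ K) * choices K A := by
  obtain ⟨c, hc, r₀, hr₀, h1⟩ := around h hh E
  refine ⟨c, hc, r₀, hr₀, fun r hr g hg => ?_⟩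
  obtain ⟨κ, C, hκ, hC, h2⟩ := h1 r hr g hg
  refine ⟨κ, C, hκ, hC, ?_⟩
  filter_upwards [h2, eventually_ge_atTop 1] with K hK hK1
  intro s m₀ hs hm₀ hm A hA
  have hgK : 2 ≤ g ^ K := (show 2 ≤ g from hg).trans (Nat.le_self_pow (by omega) g)
  have hm2 : ∀ j, 2 * (m₀ + g ^ K + h j) ≤ s := fun j => by
    refine le_trans ?_ (hm j)
    have h3 : 2 ≤ m₀ + g ^ K + h j := by omega
    rw [sq]
    exact Nat.mul_le_mul_right _ h3
  have hm' := hm2 ⟨0, hk⟩
  obtain ⟨h4, h5⟩ := hK s m₀ hs hm2 (by omega) A hA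
  have e : ∀ (Q : ℕ → Prop) t, t < g ^ K → (Around h s Q (m₀ + t) ↔ AndricaPairs h s Q (m₀ + t)) := fun Q t ht => by
    constructor
    · intro H j
      refine ⟨(H j).2, (H j).1, sqrt_lt (lt_of_lt_of_le (Nat.pow_lt_pow_left ?_ (by norm_num)) (hm j))⟩
      omega
    · intro H j
      exact ⟨(H j).2.1, (H j).1⟩
  have hle : ∀ Q : ℕ → Prop, (count g K A (fun t => Around h s Q (m₀ + t)) : ℝ) ≤
      count g K A (fun t => AndricaPairs h s Q (m₀ + t)) := fun Q => Nat.cast_le.2 (count_mono fun t ht hQ => (e Q t ht).1 hQ)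
  have hge : ∀ Q : ℕ → Prop, (count g K A (fun t => AndricaPairs h s Q (m₀ + t)) : ℝ) ≤
      count g K A (fun t => Around h s Q (m₀ + t)) := fun Q => Nat.cast_le.2 (count_mono fun t ht hQ => (e Q t ht).2 hQ)
  refine ⟨fun ⟨d, hd, h6⟩ => ?_, (hge _).trans h5⟩
  have h7 := h4 ⟨d, hd, fun j => ⟨(h6 j).2.1, (h6 j).1⟩⟩
  exact ⟨h7.1.trans (hle _), h7.2.trans (hle _)⟩

end Pool.Agent.Results.MP_82fd4a_nt.SymmetricPairs
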