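import Mathlib
import Pool.Agent.Q20.AS.WinLog

/-!
# Andrica's windows `(√x, √x + 1)` at arbitrary test positions

Andrica's conjecture says that for every real `x ≥ 2` the interval `(√x, √x + 1)` contains the square root of a prime.
Fix `C`, `r` and `δ > 0`. For all large `y`, for EVERY modulus `D ≤ y ^ (1/2 - 2 δ)`, every residue class `a` and EVERY
set `S` of at most `C (φ(D) / D) log y` real numbers of absolute value at most `C`, chosen in any way depending on `y` and
`D`, the short interval `[y, y + D (y ^ δ + 2)]` contains an integer `x ≡ a (mod D)` such that no prime `p` has its square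
root within `r / √x` of any of the points `√x + s`, `s ∈ S`. (The square roots of the primes near `x` have the average
distance `log x / (2 √x)`.) Proof: `p` within `R` of `(√x + s)²` is excluded, for a large constant `R`.
-/

set_option autoImplicit false

open Filter

namespace Pool.Agent.Results.MP_82fd4a_nt.TestPositions

theorem result (C δ r : ℝ) (hδ : 0 < δ) :
    ∀ᶠ y : ℕ in atTop, ∀ D a : ℕ, 1 ≤ D → (D : ℝ) ≤ (y : ℝ) ^ (1 / 2 - 2 * δ) →
      ∀ S : Finset ℝ, (∀ s ∈ S, |s| ≤ C) →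
      (S.card : ℝ) ≤ C * ((D.totient : ℝ) / D) * Real.log y →
      ∃ x : ℕ, y ≤ x ∧ (x : ℝ) ≤ y + D * ((y : ℝ) ^ δ + 2) ∧ x ≡ a [MOD D] ∧
        ∀ s ∈ S, ∀ p : ℕ, p.Prime → r / Real.sqrt x < |Real.sqrt p - (Real.sqrt x + s)| := by
  have hbig : ∀ᶠ y : ℕ in atTop, (2 * max C 0 + max r 0 + 1) ^ 2 ≤ (y : ℝ) :=
    tendsto_natCast_atTop_atTop.eventually (eventually_ge_atTop _)
  filter_upwards [Pool.Agent.Q20.AS.sqrtWin C δ (4 * max r 0) hδ, hbig, eventually_ge_atTop 1]
    with y hy hb hy1 D a hD1 hD S hS hcard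
  obtain ⟨x, h1, h2, h3, h4⟩ := hy D a hD1 hD S hS hcard
  refine ⟨x, h1, h2, h3, fun s hs p hp => ?_⟩
  have h5 := h4 s hs p hp
  have hr0 : 0 ≤ max r 0 := le_max_right _ _
  have hC0 : 0 ≤ max C 0 := le_max_right _ _
  have hx1 : (1 : ℝ) ≤ x := by exact_mod_cast (by omega : 1 ≤ x)
  have hyx : (y : ℝ) ≤ x := by exact_mod_cast h1
  have hq : 2 * max C 0 + max r 0 + 1 ≤ Real.sqrt x := by
    refine Real.le_sqrt_of_sq_le ?_
    linarith
  have hq0 : 0 < Real.sqrt (x : ℝ) := by linarith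
  have hp0 : 0 ≤ Real.sqrt (p : ℝ) := Real.sqrt_nonneg _
  have hpp : Real.sqrt (p : ℝ) ^ 2 = p := Real.sq_sqrt (Nat.cast_nonneg p)
  have hsC : |s| ≤ max C 0 := (hS s hs).trans (le_max_left _ _)
  have hs1 := abs_le.mp hsC
  have hrr : r / Real.sqrt x ≤ max r 0 / Real.sqrt x := by
    gcongr
    exact le_max_left _ _
  refine lt_of_le_of_lt hrr ?_
  by_contra hcon
  push Not at hcon
  have hr1 : max r 0 / Real.sqrt x ≤ 1 := by
    rw [div_le_one hq0]
    linarith
  have h6 : |Real.sqrt p + (Real.sqrt x + s)| ≤ 4 * Real.sqrt x := by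
    have h7 := abs_le.mp (hcon.trans hr1)
    rw [abs_le]
    constructor <;> linarith [h7.1, h7.2]
  have h8 : |(p : ℝ) - (Real.sqrt x + s) ^ 2| =
      |Real.sqrt p - (Real.sqrt x + s)| * |Real.sqrt p + (Real.sqrt x + s)| := by
    rw [← abs_mul]
    congr 1
    calc (p : ℝ) - (Real.sqrt x + s) ^ 2 = Real.sqrt p ^ 2 - (Real.sqrt x + s) ^ 2 := by rw [hpp]
      _ = _ := by ring
  have h9 : |(p : ℝ) - (Real.sqrt x + s) ^ 2| ≤ max r 0 / Real.sqrt x * (4 * Real.sqrt x) := by
    rw [h8]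
    gcongr
  have h10 : max r 0 / Real.sqrt x * (4 * Real.sqrt x) = 4 * max r 0 := by
    field_simp
  linarith

end Pool.Agent.Results.MP_82fd4a_nt.TestPositions
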